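import Pool.Agent.H8.BM.Defs

/-!
# General facts on minimal transversals
-/

namespace Pool.Agent.H8.BM

open Finset

theorem Hits.mono {V : Type} {T T' : Finset V} {H : Finset (Finset V)} (h : Hits T H)
    (hT : T ⊆ T') : Hits T' H := by
  intro E hE
  obtain ⟨v, hv, hvT⟩ := h E hE
  exact ⟨v, hv, hT hvT⟩

variable {V : Type} [Fintype V]

theorem mem_tr {H : Finset (Finset V)} {T : Finset V} :
    T ∈ tr H ↔ Hits T H ∧ ∀ T' : Finset V, T' ⊂ T → ¬ Hits T' H := by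
  classical
  simp [tr]

theorem exists_tr_subset {H : Finset (Finset V)} {T : Finset V} (h : Hits T H) :
    ∃ T' ⊆ T, T' ∈ tr H := by
  classical
  have hne : (T.powerset.filter (fun U => Hits U H)).Nonempty :=
    ⟨T, by simp [h]⟩
  obtain ⟨U, hU, hmin⟩ := Finset.exists_min_image _ (fun U => U.card) hne
  rw [Finset.mem_filter, Finset.mem_powerset] at hU
  refine ⟨U, hU.1, mem_tr.2 ⟨hU.2, fun U' hU' hh => ?_⟩⟩
  have h1 := hmin U' (by
    rw [Finset.mem_filter, Finset.mem_powerset]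
    exact ⟨hU'.subset.trans hU.1, hh⟩)
  exact absurd (Finset.card_lt_card hU') (not_lt.2 h1)

/-- Minimal transversals are the transversals all of whose vertices have a private edge. -/
theorem mem_tr_iff_private {H : Finset (Finset V)} {T : Finset V} :
    T ∈ tr H ↔ Hits T H ∧ ∀ v ∈ T, ∃ E ∈ H, v ∈ E ∧ ∀ w ∈ E, w ∈ T → w = v := by
  classical
  rw [mem_tr]
  constructor
  · rintro ⟨h1, h2⟩
    refine ⟨h1, fun v hv => ?_⟩
    have h3 := h2 (T.erase v) (Finset.erase_ssubset hv)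
    unfold Hits at h3
    push Not at h3
    obtain ⟨E, hE, hE2⟩ := h3
    have hpriv : ∀ w ∈ E, w ∈ T → w = v := by
      intro w hw hwT
      by_contra hne
      exact hE2 w hw (Finset.mem_erase.2 ⟨hne, hwT⟩)
    obtain ⟨w, hw, hwT⟩ := h1 E hE
    have := hpriv w hw hwT
    subst this
    exact ⟨E, hE, hw, hpriv⟩
  · rintro ⟨h1, h2⟩
    refine ⟨h1, fun T' hT' hh => ?_⟩
    obtain ⟨v, hvT, hvT'⟩ := Finset.exists_of_ssubset hT'
    obtain ⟨E, hE, hvE, hpriv⟩ := h2 v hvT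
    obtain ⟨w, hw, hwT'⟩ := hh E hE
    have := hpriv w hw (hT'.subset hwT')
    subst this
    exact hvT' hwT'

theorem tr_antichain {H : Finset (Finset V)} {T T' : Finset V} (hT : T ∈ tr H) (hT' : T' ∈ tr H)
    (h : T ⊆ T') : T = T' := by
  by_contra hne
  exact (mem_tr.1 hT').2 T (Finset.ssubset_iff_subset_ne.2 ⟨h, hne⟩) (mem_tr.1 hT).1

theorem hits_tr_iff {H : Finset (Finset V)} {Y : Finset V} :
    Hits Y (tr H) ↔ ∃ E ∈ H, E ⊆ Y := by
  classical
  constructor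
  · intro h
    by_contra hno
    push Not at hno
    have hc : Hits Yᶜ H := by
      intro E hE
      obtain ⟨v, hv, hvY⟩ := Finset.not_subset.1 (hno E hE)
      exact ⟨v, hv, Finset.mem_compl.2 hvY⟩
    obtain ⟨T, hTY, hT⟩ := exists_tr_subset hc
    obtain ⟨v, hvT, hvY⟩ := h T hT
    exact (Finset.mem_compl.1 (hTY hvT)) hvY
  · rintro ⟨E, hE, hEY⟩ T hT
    obtain ⟨v, hv, hvT⟩ := (mem_tr.1 hT).1 E hE
    exact ⟨v, hvT, hEY hv⟩

/-- Duality: `tr (tr H) = H` for antichains. -/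
theorem tr_tr {H : Finset (Finset V)} (hH : ∀ E ∈ H, ∀ E' ∈ H, E ⊆ E' → E = E') :
    tr (tr H) = H := by
  classical
  ext Y
  rw [mem_tr]
  constructor
  · rintro ⟨h1, h2⟩
    obtain ⟨E, hE, hEY⟩ := hits_tr_iff.1 h1
    by_cases hEq : E = Y
    · rwa [← hEq]
    · exact absurd (hits_tr_iff.2 ⟨E, hE, Finset.Subset.refl _⟩)
        (h2 E (Finset.ssubset_iff_subset_ne.2 ⟨hEY, hEq⟩))
  · intro hY
    refine ⟨hits_tr_iff.2 ⟨Y, hY, Finset.Subset.refl _⟩, fun Y' hY' hh => ?_⟩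
    obtain ⟨E, hE, hEY⟩ := hits_tr_iff.1 hh
    have := hH E hE Y hY (hEY.trans hY'.subset)
    subst this
    exact hY'.2 hEY

variable [DecidableEq V]

/-- In every construction some intermediate hypergraph has medium weight. -/
theorem Mult.exists_mid {t a : ℕ} (w : Finset (Finset V) → ℕ) (hw1 : ∀ E, w {E} ≤ 1)
    (hwU : ∀ S S', w (S ∪ S') ≤ w S + w S') (ha : 2 ≤ a) {B : Finset (Finset V)}
    (h : Mult t B) : a ≤ w B → ∃ S ⊆ B, (tr S).card ≤ t ∧ a ≤ w S ∧ w S < 2 * a := by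
  induction h with
  | single E =>
    intro haB
    have := hw1 E
    omega
  | union S S' _ _ ht ih ih' =>
    intro haB
    by_cases h1 : a ≤ w S
    · obtain ⟨U, hU, h2⟩ := ih h1
      exact ⟨U, hU.trans Finset.subset_union_left, h2⟩
    · by_cases h1' : a ≤ w S'
      · obtain ⟨U, hU, h2⟩ := ih' h1'
        exact ⟨U, hU.trans Finset.subset_union_right, h2⟩
      · refine ⟨S ∪ S', Finset.Subset.refl _, ht, haB, ?_⟩
        have := hwU S S'
        omega

/-- A hypergraph that restricts, after deleting the edges meeting `C`, to a copy of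
`{Ed n : n ∈ ρ}` has at least as many minimal transversals. -/
theorem card_tr_le_of_context {V₀ Γ : Type} [Fintype V₀] [DecidableEq V₀] [DecidableEq Γ]
    (ι : V₀ → V) (hι : Function.Injective ι) (C : Finset V) (S : Finset (Finset V))
    (ρ : Finset Γ) (code : Γ → Finset V) (Ed : Γ → Finset V₀)
    (h1 : ∀ n v, ι v ∈ code n ↔ v ∈ Ed n) (h2 : ∀ n, ∀ c ∈ C, c ∉ code n)
    (h3 : ∀ E ∈ S, (∃ n ∈ ρ, E = code n) ∨ ∃ c ∈ C, c ∈ E)
    (h4 : ∀ n ∈ ρ, code n ∈ S) (h5 : ∀ v, ι v ∉ C) :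
    (tr (ρ.image Ed)).card ≤ (tr S).card := by
  classical
  have key : ∀ R ∈ tr (ρ.image Ed), ∃ T' ∈ tr S, ∀ v, ι v ∈ T' ↔ v ∈ R := by
    intro R hR
    have hR' := mem_tr_iff_private.1 hR
    have hhit : Hits (R.image ι ∪ C) S := by
      intro E hE
      rcases h3 E hE with ⟨n, hn, rfl⟩ | ⟨c, hc, hcE⟩
      · obtain ⟨v, hv, hvR⟩ := hR'.1 (Ed n) (Finset.mem_image_of_mem _ hn)
        exact ⟨ι v, (h1 n v).2 hv, Finset.mem_union_left _ (Finset.mem_image_of_mem _ hvR)⟩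
      · exact ⟨c, hcE, Finset.mem_union_right _ hc⟩
    obtain ⟨T', hT'sub, hT'⟩ := exists_tr_subset hhit
    refine ⟨T', hT', fun v => ⟨fun hv => ?_, fun hv => ?_⟩⟩
    · rcases Finset.mem_union.1 (hT'sub hv) with hh | hh
      · obtain ⟨u, hu, hue⟩ := Finset.mem_image.1 hh
        rwa [← hι hue]
      · exact absurd hh (h5 v)
    · obtain ⟨E, hE, hvE, hpriv⟩ := hR'.2 v hv
      obtain ⟨n, hn, rfl⟩ := Finset.mem_image.1 hE
      obtain ⟨x, hx, hxT⟩ := (mem_tr.1 hT').1 (code n) (h4 n hn)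
      rcases Finset.mem_union.1 (hT'sub hxT) with hh | hh
      · obtain ⟨u, hu, rfl⟩ := Finset.mem_image.1 hh
        have := hpriv u ((h1 n u).1 hx) hu
        subst this
        exact hxT
      · exact absurd hx (h2 n x hh)
  choose! f hf using key
  refine Finset.card_le_card_of_injOn f (fun R hR => (hf R hR).1) ?_
  intro R hR R' hR' he
  ext v
  rw [← (hf R hR).2 v, he, (hf R' hR').2 v]

end Pool.Agent.H8.BM
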