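import Pool.Agent.H8.BM.Basic

/-!
# The hypergraph of parabolas
-/

namespace Pool.Agent.H8.BM

open Finset

/-- Vertices: a point of the plane, a nonzero slope label, and a bit. -/
abbrev Vert (p : ℕ) : Type := (ZMod p × ZMod p) × {i : ZMod p // i ≠ 0} × Bool

/-- `x` belongs to the set `X_n`: the point of `x` lies on the parabola with apex `n`, and the
label of `x` is different from its position on the parabola. -/
def InX {p : ℕ} (n : ZMod p × ZMod p) (x : Vert p) : Prop :=
  x.1.2 - n.2 = (x.1.1 - n.1) ^ 2 ∧ (x.2.1 : ZMod p) ≠ x.1.1 - n.1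

variable {p : ℕ} [Fact p.Prime]

open Classical in
/-- The hyperedge `E_n`: the complement of `X_n`. -/
noncomputable def edge (n : ZMod p × ZMod p) : Finset (Vert p) :=
  univ.filter (fun x => ¬ InX n x)

theorem mem_edge {n : ZMod p × ZMod p} {x : Vert p} : x ∈ edge n ↔ ¬ InX n x := by
  classical
  simp [edge]

theorem two_ne (hp : 2 < p) : (2 : ZMod p) ≠ 0 := by
  intro h
  have h2 : ((2 : ℕ) : ZMod p) = 0 := by exact_mod_cast h
  rw [ZMod.natCast_eq_zero_iff] at h2
  exact absurd (Nat.le_of_dvd (by norm_num) h2) (by omega)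

/-- Two points of the plane lie on at most one common parabola of the family. -/
theorem sidon (hp : 2 < p) {a b n n' : ZMod p × ZMod p}
    (hab : a ≠ b) (ha : a.2 - n.2 = (a.1 - n.1) ^ 2) (hb : b.2 - n.2 = (b.1 - n.1) ^ 2)
    (ha' : a.2 - n'.2 = (a.1 - n'.1) ^ 2) (hb' : b.2 - n'.2 = (b.1 - n'.1) ^ 2) : n = n' := by
  have h1 : a.1 - b.1 ≠ 0 := by
    intro h
    apply hab
    have hh : a.1 = b.1 := by linear_combination h
    refine Prod.ext hh ?_
    rw [hh] at ha
    linear_combination ha - hb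
  have h2 : (a.1 - b.1) * (2 * (n.1 - n'.1)) = 0 := by
    linear_combination ha - hb - ha' + hb'
  have h3 : n.1 = n'.1 := by
    rcases mul_eq_zero.1 h2 with h | h
    · exact absurd h h1
    · rcases mul_eq_zero.1 h with h | h
      · exact absurd h (two_ne hp)
      · linear_combination h
  refine Prod.ext h3 ?_
  rw [h3] at ha
  linear_combination ha' - ha

theorem InX.unique (hp : 2 < p) {n n' : ZMod p × ZMod p} {x y : Vert p} (hxy : x.1 ≠ y.1)
    (hx : InX n x) (hy : InX n y) (hx' : InX n' x) (hy' : InX n' y) : n = n' :=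
  sidon hp hxy hx.1 hy.1 hx'.1 hy'.1

theorem not_hits_image {ρ : Finset (ZMod p × ZMod p)} {T : Finset (Vert p)}
    (h : ¬ Hits T (ρ.image edge)) : ∃ n ∈ ρ, ∀ x ∈ T, InX n x := by
  classical
  unfold Hits at h
  push Not at h
  obtain ⟨E, hE, hE2⟩ := h
  obtain ⟨n, hn, rfl⟩ := Finset.mem_image.1 hE
  refine ⟨n, hn, fun x hx => ?_⟩
  by_contra hno
  exact hE2 x (mem_edge.2 hno) hx

/-- All minimal transversals of the full hypergraph have at most three vertices. -/
theorem card_le_three (hp : 2 < p) {T : Finset (Vert p)}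
    (hT : T ∈ tr ((univ : Finset (ZMod p × ZMod p)).image edge)) : T.card ≤ 3 := by
  classical
  by_contra hcard
  push Not at hcard
  obtain ⟨h1, h2⟩ := mem_tr.1 hT
  by_cases hsame : ∃ x ∈ T, ∃ y ∈ T, x.1 ≠ y.1
  · obtain ⟨x, hx, y, hy, hxy⟩ := hsame
    have hU : ({x, y} : Finset (Vert p)) ⊂ T := by
      refine Finset.ssubset_iff_subset_ne.2 ⟨?_, ?_⟩
      · intro z hz
        simp only [Finset.mem_insert, Finset.mem_singleton] at hz
        rcases hz with rfl | rfl <;> assumption
      · intro he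
        have : T.card ≤ 2 := by rw [← he]; exact Finset.card_le_two
        omega
    obtain ⟨n, -, hn⟩ := not_hits_image (h2 _ hU)
    obtain ⟨z, hz, hzT⟩ := h1 (edge n) (Finset.mem_image_of_mem _ (mem_univ _))
    have hU' : ({x, y, z} : Finset (Vert p)) ⊂ T := by
      refine Finset.ssubset_iff_subset_ne.2 ⟨?_, ?_⟩
      · intro u hu
        simp only [Finset.mem_insert, Finset.mem_singleton] at hu
        rcases hu with rfl | rfl | rfl <;> assumption
      · intro he
        have : T.card ≤ 3 := by rw [← he]; exact Finset.card_le_three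
        omega
    obtain ⟨n', -, hn'⟩ := not_hits_image (h2 _ hU')
    have hnn : n = n' := InX.unique hp hxy (hn x (by simp)) (hn y (by simp))
      (hn' x (by simp)) (hn' y (by simp))
    subst hnn
    exact (mem_edge.1 hz) (hn' z (by simp))
  · push Not at hsame
    have hne : T.Nonempty := by
      rw [← Finset.card_pos]; omega
    obtain ⟨x, hx⟩ := hne
    obtain ⟨z, hz, hzT⟩ := h1 (edge x.1) (Finset.mem_image_of_mem _ (mem_univ _))
    apply mem_edge.1 hz
    have hzx : z.1 = x.1 := hsame z hzT x hx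
    refine ⟨?_, ?_⟩
    · rw [hzx]; ring
    · rw [hzx, sub_self]; exact z.2.1.2

/-- The labels `i` for which `m` is the point with position `i` of a parabola in `ρ`. -/
noncomputable def posSet (ρ : Finset (ZMod p × ZMod p)) (m : ZMod p × ZMod p) :
    Finset (ZMod p) :=
  univ.filter (fun i => (m.1 - i, m.2 - i ^ 2) ∈ ρ)

theorem mem_posSet {ρ : Finset (ZMod p × ZMod p)} {m : ZMod p × ZMod p} {i : ZMod p} :
    i ∈ posSet ρ m ↔ (m.1 - i, m.2 - i ^ 2) ∈ ρ := by
  simp [posSet]

/-- Many minimal transversals. -/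
theorem two_pow_le (ρ : Finset (ZMod p × ZMod p)) (m : ZMod p × ZMod p) (hm : m ∉ ρ)
    (hne : (posSet ρ m).Nonempty) :
    2 ^ (posSet ρ m).card ≤ (tr (ρ.image edge)).card := by
  classical
  have hz : ∀ i ∈ posSet ρ m, i ≠ 0 := by
    rintro i hi rfl
    apply hm
    have := mem_posSet.1 hi
    simpa using this
  set Q : Finset {i : ZMod p // i ≠ 0} := univ.filter (fun i => (i : ZMod p) ∈ posSet ρ m)
    with hQ
  have hQmem : ∀ i, i ∈ Q ↔ (m.1 - (i : ZMod p), m.2 - (i : ZMod p) ^ 2) ∈ ρ := by
    intro i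
    rw [hQ, Finset.mem_filter, mem_posSet]
    simp
  have hcard : (posSet ρ m).card ≤ Q.card := by
    calc (posSet ρ m).card ≤ (Q.image Subtype.val).card := by
          apply Finset.card_le_card
          intro i hi
          rw [Finset.mem_image]
          exact ⟨⟨i, hz i hi⟩, by rw [hQ, Finset.mem_filter]; exact ⟨mem_univ _, hi⟩, rfl⟩
      _ ≤ Q.card := Finset.card_image_le
  have hQne : Q.Nonempty := by
    rw [← Finset.card_pos]
    exact lt_of_lt_of_le (Finset.card_pos.2 hne) hcard
  refine (Nat.pow_le_pow_right (by norm_num) hcard).trans ?_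
  rw [← Finset.card_powerset]
  let Y : Finset {i : ZMod p // i ≠ 0} → Finset (Vert p) := fun R =>
    Q.image (fun i => (m, i, decide (i ∈ R)))
  have hY : ∀ R x, x ∈ Y R ↔ ∃ i ∈ Q, x = (m, i, decide (i ∈ R)) := by
    intro R x
    simp only [Y, Finset.mem_image]
    constructor
    · rintro ⟨i, hi, rfl⟩; exact ⟨i, hi, rfl⟩
    · rintro ⟨i, hi, rfl⟩; exact ⟨i, hi, rfl⟩
  refine Finset.card_le_card_of_injOn Y ?_ ?_
  · intro R _
    show Y R ∈ tr (ρ.image edge)
    rw [mem_tr_iff_private]
    constructor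
    · intro E hE
      obtain ⟨n, hn, rfl⟩ := Finset.mem_image.1 hE
      by_cases hpar : m.2 - n.2 = (m.1 - n.1) ^ 2
      · have hj : m.1 - n.1 ≠ 0 := by
          intro hj
          apply hm
          have e1 : m.1 = n.1 := by linear_combination hj
          have e2 : m.2 = n.2 := by rw [hj] at hpar; linear_combination hpar
          have : m = n := Prod.ext e1 e2
          rw [this]; exact hn
        have hjQ : (⟨m.1 - n.1, hj⟩ : {i : ZMod p // i ≠ 0}) ∈ Q := by
          rw [hQmem]
          have : ((m.1 - (m.1 - n.1), m.2 - (m.1 - n.1) ^ 2) : ZMod p × ZMod p) = n := by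
            refine Prod.ext ?_ ?_
            · show m.1 - (m.1 - n.1) = n.1
              ring
            · show m.2 - (m.1 - n.1) ^ 2 = n.2
              linear_combination hpar
          show ((m.1 - (m.1 - n.1), m.2 - (m.1 - n.1) ^ 2) : ZMod p × ZMod p) ∈ ρ
          rw [this]; exact hn
        refine ⟨(m, ⟨m.1 - n.1, hj⟩, decide (⟨m.1 - n.1, hj⟩ ∈ R)), ?_, (hY _ _).2 ⟨_, hjQ, rfl⟩⟩
        rw [mem_edge]
        rintro ⟨-, h⟩
        exact h rfl
      · obtain ⟨i, hi⟩ := hQne
        refine ⟨(m, i, decide (i ∈ R)), ?_, (hY _ _).2 ⟨_, hi, rfl⟩⟩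
        rw [mem_edge]
        rintro ⟨h, -⟩
        exact hpar h
    · intro v hv
      obtain ⟨i, hi, rfl⟩ := (hY _ _).1 hv
      refine ⟨edge (m.1 - (i : ZMod p), m.2 - (i : ZMod p) ^ 2),
        Finset.mem_image_of_mem _ ((hQmem i).1 hi), ?_, ?_⟩
      · rw [mem_edge]
        rintro ⟨-, h⟩
        apply h
        show (i : ZMod p) = m.1 - (m.1 - (i : ZMod p))
        ring
      · intro w hw hwY
        obtain ⟨i', hi', rfl⟩ := (hY _ _).1 hwY
        have hii : i' = i := by
          by_contra hne'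
          apply mem_edge.1 hw
          refine ⟨?_, ?_⟩
          · show m.2 - (m.2 - (i : ZMod p) ^ 2) = (m.1 - (m.1 - (i : ZMod p))) ^ 2
            ring
          · show (i' : ZMod p) ≠ m.1 - (m.1 - (i : ZMod p))
            intro h
            apply hne'
            apply Subtype.ext
            rw [h]; ring
        rw [hii]
  · intro R hR R' hR' he
    have hR1 : R ⊆ Q := Finset.mem_powerset.1 hR
    have hR2 : R' ⊆ Q := Finset.mem_powerset.1 hR'
    have key : ∀ (U : Finset {i : ZMod p // i ≠ 0}), U ⊆ Q → ∀ i, i ∈ U ↔ (m, i, true) ∈ Y U := by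
      intro U hU i
      rw [hY]
      constructor
      · intro hi
        exact ⟨i, hU hi, by simp [hi]⟩
      · rintro ⟨i', hi', h⟩
        have e1 : i = i' := congrArg (fun z => z.2.1) h
        have e2 : true = decide (i' ∈ U) := congrArg (fun z => z.2.2) h
        rw [e1]
        exact of_decide_eq_true e2.symm
    ext i
    rw [key R hR1 i, key R' hR2 i]
    show (m, i, true) ∈ Y R ↔ (m, i, true) ∈ Y R'
    have he' : Y R = Y R' := he
    rw [he']

end Pool.Agent.H8.BM
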