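import Pool.Agent.H8.BM.Core

/-!
# Counting: a medium family `ρ` leaves a point outside `ρ` on many parabolas of `ρ`
-/

namespace Pool.Agent.H8.BM

open Finset

variable {p : ℕ} [Fact p.Prime]

theorem sum_card_posSet (ρ : Finset (ZMod p × ZMod p)) :
    ∑ m, (posSet ρ m).card = p * ρ.card := by
  classical
  have h1 : ∀ m, (posSet ρ m).card
      = ∑ i : ZMod p, if (m.1 - i, m.2 - i ^ 2) ∈ ρ then 1 else 0 := by
    intro m
    rw [posSet, Finset.card_filter]
  simp_rw [h1]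
  rw [Finset.sum_comm]
  have h2 : ∀ i : ZMod p, (∑ m : ZMod p × ZMod p, if (m.1 - i, m.2 - i ^ 2) ∈ ρ then 1 else 0)
      = ρ.card := by
    intro i
    have hbij : (∑ m : ZMod p × ZMod p, if (m.1 - i, m.2 - i ^ 2) ∈ ρ then 1 else 0)
        = ∑ m : ZMod p × ZMod p, if m ∈ ρ then 1 else 0 := by
      apply Fintype.sum_equiv (Equiv.subRight ((i, i ^ 2) : ZMod p × ZMod p))
      intro m
      rfl
    rw [hbij]
    simp
  simp_rw [h2]
  simp [ZMod.card]

theorem sum_sq_card_posSet (hp : 2 < p) (ρ : Finset (ZMod p × ZMod p)) :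
    ∑ m, (posSet ρ m).card ^ 2 ≤ p * ρ.card + ρ.card ^ 2 := by
  classical
  have h1 : ∀ m, (posSet ρ m).card ^ 2
      = (posSet ρ m).card + ((posSet ρ m).offDiag).card := by
    intro m
    rw [Finset.offDiag_card]
    have : (posSet ρ m).card ≤ (posSet ρ m).card * (posSet ρ m).card := Nat.le_mul_self _
    rw [sq]; omega
  simp_rw [h1]
  rw [Finset.sum_add_distrib, sum_card_posSet]
  refine Nat.add_le_add_left ?_ _
  rw [← Finset.card_sigma, sq, ← Finset.card_product]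
  refine Finset.card_le_card_of_injOn
    (fun z => ((z.1.1 - z.2.1, z.1.2 - z.2.1 ^ 2), (z.1.1 - z.2.2, z.1.2 - z.2.2 ^ 2))) ?_ ?_
  · rintro ⟨m, i, j⟩ hz
    rw [Finset.mem_coe, Finset.mem_sigma, Finset.mem_offDiag] at hz
    obtain ⟨-, hi, hj, -⟩ := hz
    rw [Finset.mem_coe, Finset.mem_product]
    exact ⟨mem_posSet.1 hi, mem_posSet.1 hj⟩
  · rintro ⟨m, i, j⟩ hz ⟨m', i', j'⟩ hz' he
    rw [Finset.mem_coe, Finset.mem_sigma, Finset.mem_offDiag] at hz hz'
    obtain ⟨-, -, -, hij⟩ := hz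
    simp only [Prod.mk.injEq] at he
    obtain ⟨⟨e1, e2⟩, e3, e4⟩ := he
    simp only at hij e1 e2 e3 e4
    have hij' : i - j ≠ 0 := sub_ne_zero.2 hij
    -- i - j = i' - j', i ^ 2 - j ^ 2 = i' ^ 2 - j' ^ 2
    have k1 : i - j = i' - j' := by linear_combination e3 - e1
    have k2 : (i - j) * (2 * (i - i')) = 0 := by
      linear_combination e4 - e2 + (i - j - i' - j') * k1
    have k3 : i = i' := by
      rcases mul_eq_zero.1 k2 with h | h
      · exact absurd h hij'
      · rcases mul_eq_zero.1 h with h | h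
        · exact absurd h (two_ne hp)
        · linear_combination h
    have k4 : j = j' := by linear_combination k3 - k1
    subst k3; subst k4
    have k5 : m = m' := Prod.ext (by linear_combination e1) (by linear_combination e2)
    subst k5
    rfl

theorem exists_good (hp : 192 < p) (ρ : Finset (ZMod p × ZMod p))
    (h1 : p ^ 2 ≤ 4 * ρ.card) (h2 : 4 * ρ.card ≤ 3 * p ^ 2) :
    ∃ m ∉ ρ, p < 8 * (posSet ρ m).card := by
  classical
  by_contra hno
  push Not at hno
  set s : ℝ := (ρ.card : ℝ) with hs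
  set P : ℝ := (p : ℝ) with hP
  have hPpos : (192 : ℝ) < P := by rw [hP]; exact_mod_cast hp
  have hs1 : P ^ 2 ≤ 4 * s := by rw [hs, hP]; exact_mod_cast h1
  have hs2 : 4 * s ≤ 3 * P ^ 2 := by rw [hs, hP]; exact_mod_cast h2
  have hsum1 : ∑ m : ZMod p × ZMod p, ((posSet ρ m).card : ℝ) = P * s := by
    rw [hs, hP]; exact_mod_cast sum_card_posSet ρ
  have hsum2 : ∑ m : ZMod p × ZMod p, ((posSet ρ m).card : ℝ) ^ 2 ≤ P * s + s ^ 2 := by
    rw [hs, hP]; exact_mod_cast sum_sq_card_posSet (by omega) ρ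
  have hcardΓ : ((univ : Finset (ZMod p × ZMod p)).card : ℝ) = P ^ 2 := by
    rw [Finset.card_univ, Fintype.card_prod, ZMod.card, hP]
    push_cast; ring
  have hvar : ∑ m : ZMod p × ZMod p, (s - P * ((posSet ρ m).card : ℝ)) ^ 2 ≤ P ^ 3 * s := by
    have e : ∑ m : ZMod p × ZMod p, (s - P * ((posSet ρ m).card : ℝ)) ^ 2
        = P ^ 2 * s ^ 2 - 2 * s * P * (P * s)
          + P ^ 2 * ∑ m : ZMod p × ZMod p, ((posSet ρ m).card : ℝ) ^ 2 := by
      rw [← hsum1, Finset.mul_sum, Finset.mul_sum]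
      have : ∀ m : ZMod p × ZMod p, (s - P * ((posSet ρ m).card : ℝ)) ^ 2
          = s ^ 2 - 2 * s * P * ((posSet ρ m).card : ℝ)
            + P ^ 2 * ((posSet ρ m).card : ℝ) ^ 2 := by
        intro m; ring
      simp_rw [this]
      rw [Finset.sum_add_distrib, Finset.sum_sub_distrib, Finset.sum_const, nsmul_eq_mul, hcardΓ]
    rw [e]
    have hP2 : (0 : ℝ) ≤ P ^ 2 := by positivity
    nlinarith [mul_le_mul_of_nonneg_left hsum2 hP2]
  have hlow : (P ^ 2 - s) * (P ^ 2 / 8) ^ 2 ≤ P ^ 3 * s := by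
    refine le_trans ?_ hvar
    calc (P ^ 2 - s) * (P ^ 2 / 8) ^ 2
        = ∑ _m ∈ ρᶜ, (P ^ 2 / 8) ^ 2 := by
          rw [Finset.sum_const, nsmul_eq_mul, Finset.card_compl, Nat.cast_sub
            (Finset.card_le_univ ρ), Fintype.card_prod, ZMod.card]
          push_cast
          rw [← hs, ← hP]; ring
      _ ≤ ∑ m ∈ ρᶜ, (s - P * ((posSet ρ m).card : ℝ)) ^ 2 := by
          apply Finset.sum_le_sum
          intro m hm
          have hm' := hno m (Finset.mem_compl.1 hm)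
          have hb : 8 * ((posSet ρ m).card : ℝ) ≤ P := by
            rw [hP]; exact_mod_cast hm'
          have hPb : 8 * (P * ((posSet ρ m).card : ℝ)) ≤ P ^ 2 := by
            nlinarith
          have h0 : (0 : ℝ) ≤ P ^ 2 / 8 := by positivity
          have h3 : P ^ 2 / 8 ≤ s - P * ((posSet ρ m).card : ℝ) := by linarith
          exact pow_le_pow_left₀ h0 h3 2
      _ ≤ ∑ m : ZMod p × ZMod p, (s - P * ((posSet ρ m).card : ℝ)) ^ 2 := by
          apply Finset.sum_le_sum_of_subset_of_nonneg (Finset.subset_univ _)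
          intro m _ _
          positivity
  -- (P^2/4) * P^4/64 ≤ P^3 * (3/4) P^2
  have hPp : (0 : ℝ) < P := by linarith
  have e1 : P ^ 2 / 4 * (P ^ 4 / 64) ≤ P ^ 3 * (3 / 4 * P ^ 2) := by
    calc P ^ 2 / 4 * (P ^ 4 / 64) ≤ (P ^ 2 - s) * (P ^ 4 / 64) := by
          apply mul_le_mul_of_nonneg_right _ (by positivity)
          linarith
      _ = (P ^ 2 - s) * (P ^ 2 / 8) ^ 2 := by ring
      _ ≤ P ^ 3 * s := hlow
      _ ≤ P ^ 3 * (3 / 4 * P ^ 2) := by
          apply mul_le_mul_of_nonneg_left _ (by positivity)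
          linarith
  have e2 : P ^ 5 * P ≤ P ^ 5 * 192 := by nlinarith
  have e3 := le_of_mul_le_mul_left e2 (by positivity)
  linarith

/-- The lower bound for a medium subfamily. -/
theorem lower (hp : 192 < p) (ρ : Finset (ZMod p × ZMod p))
    (h1 : p ^ 2 ≤ 4 * ρ.card) (h2 : 4 * ρ.card ≤ 3 * p ^ 2) :
    (2 : ℝ) ^ ((p : ℝ) / 8) ≤ ((tr (ρ.image edge)).card : ℝ) := by
  obtain ⟨m, hm, hb⟩ := exists_good hp ρ h1 h2
  have hpos : 0 < (posSet ρ m).card := by omega
  have h3 := two_pow_le ρ m hm (Finset.card_pos.1 hpos)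
  calc (2 : ℝ) ^ ((p : ℝ) / 8) ≤ (2 : ℝ) ^ (((posSet ρ m).card : ℝ)) := by
        apply Real.rpow_le_rpow_of_exponent_le (by norm_num)
        have : (p : ℝ) ≤ 8 * ((posSet ρ m).card : ℝ) := by exact_mod_cast hb.le
        linarith
    _ = ((2 ^ (posSet ρ m).card : ℕ) : ℝ) := by
        rw [Real.rpow_natCast]; push_cast; rfl
    _ ≤ _ := by exact_mod_cast h3

end Pool.Agent.H8.BM
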