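import Mathlib

/-!
# Berge multiplication (definitions)

`V` is a finite vertex set and a hypergraph is a `Finset (Finset V)`.
-/

namespace Pool.Agent.H8.BM

variable {V : Type}

/-- `T` is a transversal of the hypergraph `H`. -/
def Hits (T : Finset V) (H : Finset (Finset V)) : Prop :=
  ∀ E ∈ H, ∃ v ∈ E, v ∈ T

open Classical in
/-- The hypergraph of all minimal transversals of `H`. -/
noncomputable def tr [Fintype V] (H : Finset (Finset V)) : Finset (Finset V) :=
  Finset.univ.filter (fun T => Hits T H ∧ ∀ T' : Finset V, T' ⊂ T → ¬ Hits T' H)

/-- `Mult t B`: the hypergraph `B` can be built, starting from single hyperedges, by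
repeatedly forming the union of two hypergraphs that have already been built, in such a way
that every union formed on the way has at most `t` minimal transversals. This is Berge
multiplication of the hyperedges of `B` in an arbitrary order, with arbitrary bracketing and
with reuse of intermediate results, in which no intermediate list is longer than `t`. -/
inductive Mult [Fintype V] [DecidableEq V] (t : ℕ) : Finset (Finset V) → Prop
  | single (E : Finset V) : Mult t {E}
  | union (S S' : Finset (Finset V)) : Mult t S → Mult t S' → (tr (S ∪ S')).card ≤ t →
      Mult t (S ∪ S')

end Pool.Agent.H8.BM
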