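import Pool.Agent.H8.BM.Two

/-!
# Sizes and the main theorem
-/

namespace Pool.Agent.H8.BM

open Finset

variable {p : ℕ} [Fact p.Prime]

theorem card_vert_le : Fintype.card (Vert p) ≤ 2 * p ^ 3 := by
  have h : Fintype.card {i : ZMod p // i ≠ 0} ≤ p := by
    calc Fintype.card {i : ZMod p // i ≠ 0} ≤ Fintype.card (ZMod p) := Fintype.card_subtype_le _
      _ = p := ZMod.card p
  rw [Fintype.card_prod, Fintype.card_prod, Fintype.card_prod, ZMod.card, Fintype.card_bool]
  calc p * p * (Fintype.card {i : ZMod p // i ≠ 0} * 2) ≤ p * p * (p * 2) :=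
        Nat.mul_le_mul_left _ (Nat.mul_le_mul_right _ h)
    _ = 2 * p ^ 3 := by ring

theorem le_card_vert : p ≤ Fintype.card (Vert p) := by
  have hpp : 0 < p := (Fact.out : p.Prime).pos
  have h : 0 < Fintype.card {i : ZMod p // i ≠ 0} :=
    Fintype.card_pos_iff.2 ⟨⟨1, one_ne_zero⟩⟩
  rw [Fintype.card_prod, Fintype.card_prod, Fintype.card_prod, ZMod.card, Fintype.card_bool]
  calc p = p * 1 * (1 * 1) := by ring
    _ ≤ p * p * (Fintype.card {i : ZMod p // i ≠ 0} * 2) := by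
        apply Nat.mul_le_mul
        · exact Nat.mul_le_mul_left _ hpp
        · exact Nat.mul_le_mul h (by norm_num)

theorem card_hyp_le : (hyp p).card ≤ p ^ 2 := by
  calc (hyp p).card ≤ (univ : Finset (ZMod p × ZMod p)).card := Finset.card_image_le
    _ = p ^ 2 := by rw [Finset.card_univ, Fintype.card_prod, ZMod.card, sq]

theorem card_tr_hyp_le (hp : 2 < p) : (tr (hyp p)).card ≤ 32 * p ^ 9 := by
  classical
  set v := Fintype.card (Vert p) with hv
  have hv1 : 1 ≤ v := le_trans (by omega) (le_card_vert (p := p))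
  have hv2 : v ≤ 2 * p ^ 3 := card_vert_le
  have hsub : tr (hyp p) ⊆
      (Finset.range 4).biUnion (fun k => Finset.powersetCard k (univ : Finset (Vert p))) := by
    intro T hT
    rw [Finset.mem_biUnion]
    refine ⟨T.card, ?_, ?_⟩
    · rw [Finset.mem_range]
      have := card_le_three hp hT
      omega
    · rw [Finset.mem_powersetCard]
      exact ⟨Finset.subset_univ _, rfl⟩
  calc (tr (hyp p)).card
      ≤ ((Finset.range 4).biUnion
          (fun k => Finset.powersetCard k (univ : Finset (Vert p)))).card :=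
        Finset.card_le_card hsub
    _ ≤ ∑ k ∈ Finset.range 4, (Finset.powersetCard k (univ : Finset (Vert p))).card :=
        Finset.card_biUnion_le
    _ = ∑ k ∈ Finset.range 4, v.choose k := by
        apply Finset.sum_congr rfl
        intro k _
        rw [Finset.card_powersetCard, Finset.card_univ]
    _ ≤ ∑ k ∈ Finset.range 4, v ^ 3 := by
        apply Finset.sum_le_sum
        intro k hk
        rw [Finset.mem_range] at hk
        exact (Nat.choose_le_pow v k).trans (Nat.pow_le_pow_right hv1 (by omega))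
    _ = 4 * v ^ 3 := by simp
    _ ≤ 4 * (2 * p ^ 3) ^ 3 := Nat.mul_le_mul_left _ (Nat.pow_le_pow_left hv2 3)
    _ = 32 * p ^ 9 := by ring

theorem card_two_le (hp : 2 < p) : (two p).card ≤ p ^ 2 + 32 * p ^ 9 := by
  calc (two p).card ≤ _ := Finset.card_union_le _ _
    _ ≤ (hyp p).card + (tr (hyp p)).card :=
        Nat.add_le_add Finset.card_image_le Finset.card_image_le
    _ ≤ _ := Nat.add_le_add card_hyp_le (card_tr_hyp_le hp)

theorem card_tr_two_le (hp : 2 < p) : (tr (two p)).card ≤ 32 * p ^ 11 := by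
  classical
  have hsub : tr (two p) ⊆ (tr (hyp p) ×ˢ hyp p).image (fun z => z.1.disjSum z.2) := by
    intro X hX
    obtain ⟨T, hT, n, rfl⟩ := (mem_tr_two hp).1 hX
    rw [Finset.mem_image]
    exact ⟨(T, edge n), Finset.mem_product.2 ⟨hT, mem_hyp.2 ⟨n, rfl⟩⟩, rfl⟩
  calc (tr (two p)).card ≤ _ := Finset.card_le_card hsub
    _ ≤ (tr (hyp p) ×ˢ hyp p).card := Finset.card_image_le
    _ = (tr (hyp p)).card * (hyp p).card := Finset.card_product _ _
    _ ≤ 32 * p ^ 9 * p ^ 2 := Nat.mul_le_mul (card_tr_hyp_le hp) card_hyp_le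
    _ = 32 * p ^ 11 := by ring

theorem size_le (hp : 2 < p) :
    Fintype.card (Vert p ⊕ Vert p) + (two p).card + (tr (two p)).card ≤ 72 * p ^ 11 := by
  have h1 : Fintype.card (Vert p ⊕ Vert p) ≤ 4 * p ^ 3 := by
    rw [Fintype.card_sum]
    have := card_vert_le (p := p)
    omega
  have h2 := card_two_le hp
  have h3 := card_tr_two_le hp
  have hp1 : 1 ≤ p := by omega
  have e3 : p ^ 3 ≤ p ^ 11 := Nat.pow_le_pow_right hp1 (by norm_num)
  have e2 : p ^ 2 ≤ p ^ 11 := Nat.pow_le_pow_right hp1 (by norm_num)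
  have e9 : p ^ 9 ≤ p ^ 11 := Nat.pow_le_pow_right hp1 (by norm_num)
  omega

theorem size_rpow_le (hp : 72 * 8 ^ 12 ≤ p) :
    (((Fintype.card (Vert p ⊕ Vert p) + (two p).card + (tr (two p)).card : ℕ)) : ℝ)
      ^ (1 / 12 : ℝ) ≤ (p : ℝ) / 8 := by
  have hp2 : 2 < p := lt_of_lt_of_le (by norm_num) hp
  have h1 : (((Fintype.card (Vert p ⊕ Vert p) + (two p).card + (tr (two p)).card : ℕ)) : ℝ)
      ≤ ((p : ℝ) / 8) ^ 12 := by
    calc (((Fintype.card (Vert p ⊕ Vert p) + (two p).card + (tr (two p)).card : ℕ)) : ℝ)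
        ≤ ((72 * p ^ 11 : ℕ) : ℝ) := by exact_mod_cast size_le hp2
      _ = 72 * (p : ℝ) ^ 11 := by push_cast; ring
      _ ≤ ((p : ℝ) / 8) ^ 12 := by
          have h : (72 * 8 ^ 12 : ℝ) ≤ (p : ℝ) := by exact_mod_cast hp
          have h11 : (0 : ℝ) ≤ (p : ℝ) ^ 11 := by positivity
          rw [div_pow, le_div_iff₀ (by positivity)]
          calc 72 * (p : ℝ) ^ 11 * 8 ^ 12 = (p : ℝ) ^ 11 * (72 * 8 ^ 12) := by ring
            _ ≤ (p : ℝ) ^ 11 * p := mul_le_mul_of_nonneg_left h h11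
            _ = (p : ℝ) ^ 12 := by ring
  calc (((Fintype.card (Vert p ⊕ Vert p) + (two p).card + (tr (two p)).card : ℕ)) : ℝ)
      ^ (1 / 12 : ℝ) ≤ (((p : ℝ) / 8) ^ 12) ^ (1 / 12 : ℝ) :=
        Real.rpow_le_rpow (by positivity) h1 (by norm_num)
    _ = (p : ℝ) / 8 := by
        rw [← Real.rpow_natCast, ← Real.rpow_mul (by positivity)]
        norm_num

theorem main (M : ℕ) : ∃ (V : Type) (_ : Fintype V) (_ : DecidableEq V)
    (A : Finset (Finset V)), M ≤ Fintype.card V ∧ tr (tr A) = A ∧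
      ∀ t : ℕ, Mult t A ∨ Mult t (tr A) →
        (2 : ℝ) ^ (((Fintype.card V + A.card + (tr A).card : ℕ) : ℝ) ^ (1 / 12 : ℝ)) ≤ (t : ℝ) := by
  obtain ⟨p, hpM, hpp⟩ := Nat.exists_infinite_primes (max M (72 * 8 ^ 12))
  have : Fact p.Prime := ⟨hpp⟩
  have h1 : M ≤ p := le_trans (le_max_left _ _) hpM
  have h2 : 72 * 8 ^ 12 ≤ p := le_trans (le_max_right _ _) hpM
  have h192 : 192 < p := lt_of_lt_of_le (by norm_num) h2
  have hp2 : 2 < p := by omega
  refine ⟨Vert p ⊕ Vert p, inferInstance, inferInstance, two p, ?_, tr_tr_two hp2, ?_⟩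
  · rw [Fintype.card_sum]
    have := le_card_vert (p := p)
    omega
  · intro t ht
    refine le_trans (Real.rpow_le_rpow_of_exponent_le (by norm_num) (size_rpow_le h2)) ?_
    rcases ht with ht | ht
    · exact lower_two h192 ht
    · exact lower_tr_two h192 ht

theorem card_hyp (hp : 2 < p) : (hyp p).card = p ^ 2 := by
  rw [hyp, Finset.card_image_of_injective _ (edge_injective hp), Finset.card_univ,
    Fintype.card_prod, ZMod.card, sq]

/-- Every subfamily of medium size has exponentially many minimal transversals. -/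
theorem lower_hyp (hp : 192 < p) (S : Finset (Finset (Vert p))) (hS : S ⊆ hyp p)
    (h1 : (hyp p).card ≤ 4 * S.card) (h2 : 4 * S.card ≤ 3 * (hyp p).card) :
    (2 : ℝ) ^ ((p : ℝ) / 8) ≤ ((tr S).card : ℝ) := by
  classical
  have hp2 : 2 < p := by omega
  set ρ : Finset (ZMod p × ZMod p) := univ.filter (fun n => edge n ∈ S) with hρ
  have hSρ : S = ρ.image edge := by
    ext E
    rw [Finset.mem_image]
    constructor
    · intro hE
      obtain ⟨n, rfl⟩ := mem_hyp.1 (hS hE)
      exact ⟨n, by rw [hρ, Finset.mem_filter]; exact ⟨mem_univ _, hE⟩, rfl⟩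
    · rintro ⟨n, hn, rfl⟩
      rw [hρ, Finset.mem_filter] at hn
      exact hn.2
  have hcard : S.card = ρ.card := by
    rw [hSρ, Finset.card_image_of_injective _ (edge_injective hp2)]
  rw [card_hyp hp2, hcard] at h1 h2
  rw [hSρ]
  exact lower hp ρ h1 h2

theorem main₁ (p : ℕ) (hpp : p.Prime) (hp : 192 < p) :
    ∃ (V : Type) (_ : Fintype V) (_ : DecidableEq V) (A : Finset (Finset V)),
      Fintype.card V ≤ 2 * p ^ 3 ∧ A.card = p ^ 2 ∧ (tr A).card ≤ 32 * p ^ 9 ∧
      tr (tr A) = A ∧ (∀ T ∈ tr A, T.card ≤ 3) ∧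
      ∀ S ⊆ A, A.card ≤ 4 * S.card → 4 * S.card ≤ 3 * A.card →
        (2 : ℝ) ^ ((p : ℝ) / 8) ≤ ((tr S).card : ℝ) := by
  have : Fact p.Prime := ⟨hpp⟩
  have hp2 : 2 < p := by omega
  exact ⟨Vert p, inferInstance, inferInstance, hyp p, card_vert_le, card_hyp hp2,
    card_tr_hyp_le hp2, tr_tr (hyp_antichain hp2), fun T hT => card_le_three hp2 hT,
    fun S hS h1 h2 => lower_hyp hp S hS h1 h2⟩

end Pool.Agent.H8.BM
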