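import Pool.Agent.H8.BM.Count

/-!
# The self-contained two-sided hypergraph
-/

namespace Pool.Agent.H8.BM

open Finset

section General

variable {V W : Type} [Fintype V] [Fintype W] [DecidableEq V] [DecidableEq W]

/-- Minimal transversals of a disjoint union. -/
theorem tr_disj (A₁ : Finset (Finset V)) (A₂ : Finset (Finset W)) (T : Finset (V ⊕ W)) :
    T ∈ tr (A₁.image (fun E => E.disjSum (∅ : Finset W)) ∪
        A₂.image (fun E => (∅ : Finset V).disjSum E)) ↔
      ∃ L ∈ tr A₁, ∃ R ∈ tr A₂, T = L.disjSum R := by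
  classical
  have hhits : ∀ (L : Finset V) (R : Finset W),
      Hits (L.disjSum R) (A₁.image (fun E => E.disjSum (∅ : Finset W)) ∪
        A₂.image (fun E => (∅ : Finset V).disjSum E)) ↔ Hits L A₁ ∧ Hits R A₂ := by
    intro L R
    constructor
    · intro h
      constructor
      · intro E hE
        obtain ⟨v, hv, hvT⟩ := h (E.disjSum ∅)
          (Finset.mem_union_left _ (Finset.mem_image_of_mem _ hE))
        rcases v with v | v
        · exact ⟨v, Finset.inl_mem_disjSum.1 hv, Finset.inl_mem_disjSum.1 hvT⟩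
        · exact absurd (Finset.inr_mem_disjSum.1 hv) (Finset.notMem_empty _)
      · intro E hE
        obtain ⟨v, hv, hvT⟩ := h ((∅ : Finset V).disjSum E)
          (Finset.mem_union_right _ (Finset.mem_image_of_mem _ hE))
        rcases v with v | v
        · exact absurd (Finset.inl_mem_disjSum.1 hv) (Finset.notMem_empty _)
        · exact ⟨v, Finset.inr_mem_disjSum.1 hv, Finset.inr_mem_disjSum.1 hvT⟩
    · rintro ⟨h1, h2⟩ E hE
      rcases Finset.mem_union.1 hE with hE | hE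
      · obtain ⟨E', hE', rfl⟩ := Finset.mem_image.1 hE
        obtain ⟨v, hv, hvL⟩ := h1 E' hE'
        exact ⟨Sum.inl v, Finset.inl_mem_disjSum.2 hv, Finset.inl_mem_disjSum.2 hvL⟩
      · obtain ⟨E', hE', rfl⟩ := Finset.mem_image.1 hE
        obtain ⟨v, hv, hvR⟩ := h2 E' hE'
        exact ⟨Sum.inr v, Finset.inr_mem_disjSum.2 hv, Finset.inr_mem_disjSum.2 hvR⟩
  have hpair : ∀ (L : Finset V) (R : Finset W),
      L.disjSum R ∈ tr (A₁.image (fun E => E.disjSum (∅ : Finset W)) ∪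
        A₂.image (fun E => (∅ : Finset V).disjSum E)) ↔ L ∈ tr A₁ ∧ R ∈ tr A₂ := by
    intro L R
    rw [mem_tr_iff_private, mem_tr_iff_private, mem_tr_iff_private, hhits]
    constructor
    · rintro ⟨⟨h1, h2⟩, h3⟩
      refine ⟨⟨h1, fun v hv => ?_⟩, ⟨h2, fun v hv => ?_⟩⟩
      · obtain ⟨E, hE, hvE, hpr⟩ := h3 (Sum.inl v) (Finset.inl_mem_disjSum.2 hv)
        rcases Finset.mem_union.1 hE with hE | hE
        · obtain ⟨E', hE', rfl⟩ := Finset.mem_image.1 hE
          refine ⟨E', hE', Finset.inl_mem_disjSum.1 hvE, fun w hw hwL => ?_⟩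
          exact Sum.inl_injective
            (hpr (Sum.inl w) (Finset.inl_mem_disjSum.2 hw) (Finset.inl_mem_disjSum.2 hwL))
        · obtain ⟨E', hE', rfl⟩ := Finset.mem_image.1 hE
          exact absurd (Finset.inl_mem_disjSum.1 hvE) (Finset.notMem_empty _)
      · obtain ⟨E, hE, hvE, hpr⟩ := h3 (Sum.inr v) (Finset.inr_mem_disjSum.2 hv)
        rcases Finset.mem_union.1 hE with hE | hE
        · obtain ⟨E', hE', rfl⟩ := Finset.mem_image.1 hE
          exact absurd (Finset.inr_mem_disjSum.1 hvE) (Finset.notMem_empty _)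
        · obtain ⟨E', hE', rfl⟩ := Finset.mem_image.1 hE
          refine ⟨E', hE', Finset.inr_mem_disjSum.1 hvE, fun w hw hwR => ?_⟩
          exact Sum.inr_injective
            (hpr (Sum.inr w) (Finset.inr_mem_disjSum.2 hw) (Finset.inr_mem_disjSum.2 hwR))
    · rintro ⟨⟨h1, h2⟩, ⟨h3, h4⟩⟩
      refine ⟨⟨h1, h3⟩, fun v hv => ?_⟩
      rcases v with v | v
      · obtain ⟨E, hE, hvE, hpr⟩ := h2 v (Finset.inl_mem_disjSum.1 hv)
        refine ⟨E.disjSum ∅, Finset.mem_union_left _ (Finset.mem_image_of_mem _ hE),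
          Finset.inl_mem_disjSum.2 hvE, fun w hw hwT => ?_⟩
        rcases w with w | w
        · rw [hpr w (Finset.inl_mem_disjSum.1 hw) (Finset.inl_mem_disjSum.1 hwT)]
        · exact absurd (Finset.inr_mem_disjSum.1 hw) (Finset.notMem_empty _)
      · obtain ⟨E, hE, hvE, hpr⟩ := h4 v (Finset.inr_mem_disjSum.1 hv)
        refine ⟨(∅ : Finset V).disjSum E,
          Finset.mem_union_right _ (Finset.mem_image_of_mem _ hE),
          Finset.inr_mem_disjSum.2 hvE, fun w hw hwT => ?_⟩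
        rcases w with w | w
        · exact absurd (Finset.inl_mem_disjSum.1 hw) (Finset.notMem_empty _)
        · rw [hpr w (Finset.inr_mem_disjSum.1 hw) (Finset.inr_mem_disjSum.1 hwT)]
  constructor
  · intro hT
    rw [← Finset.toLeft_disjSum_toRight (u := T)] at hT
    obtain ⟨h1, h2⟩ := (hpair _ _).1 hT
    exact ⟨_, h1, _, h2, Finset.toLeft_disjSum_toRight.symm⟩
  · rintro ⟨L, hL, R, hR, rfl⟩
    exact (hpair _ _).2 ⟨hL, hR⟩

end General

variable {p : ℕ} [Fact p.Prime]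

instance decEqTwo : DecidableEq (Vert p ⊕ Vert p) := inferInstance

theorem edge_subset (hp : 2 < p) {n m : ZMod p × ZMod p} (h : (edge n : Finset (Vert p)) ⊆ edge m) :
    n = m := by
  have h' : ∀ x : Vert p, InX m x → InX n x := by
    intro x hx
    by_contra hno
    exact mem_edge.1 (h (mem_edge.2 hno)) hx
  have hone : (1 : ZMod p) ≠ 0 := one_ne_zero
  have htwo : (2 : ZMod p) ≠ 0 := two_ne hp
  let x : Vert p := (m, ⟨1, hone⟩, true)
  let y : Vert p := ((m.1 + 1, m.2 + 1), ⟨2, htwo⟩, true)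
  have hx : InX m x := by
    refine ⟨?_, ?_⟩
    · show m.2 - m.2 = (m.1 - m.1) ^ 2
      ring
    · show (1 : ZMod p) ≠ m.1 - m.1
      rw [sub_self]; exact hone
  have hy : InX m y := by
    refine ⟨?_, ?_⟩
    · show m.2 + 1 - m.2 = (m.1 + 1 - m.1) ^ 2
      ring
    · show (2 : ZMod p) ≠ m.1 + 1 - m.1
      intro hh
      apply hone
      linear_combination hh
  have hxy : x.1 ≠ y.1 := by
    intro hh
    have : m.1 = m.1 + 1 := congrArg Prod.fst hh
    apply hone
    linear_combination (-1 : ZMod p) * this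
  exact InX.unique hp hxy (h' x hx) (h' y hy) hx hy

theorem edge_injective (hp : 2 < p) :
    Function.Injective (edge : ZMod p × ZMod p → Finset (Vert p)) := by
  intro n m h
  exact edge_subset hp h.subset

theorem edge_nonempty (n : ZMod p × ZMod p) : (edge n : Finset (Vert p)).Nonempty := by
  refine ⟨((n.1 + 1, n.2), ⟨1, one_ne_zero⟩, true), ?_⟩
  rw [mem_edge]
  rintro ⟨-, h⟩
  apply h
  show (1 : ZMod p) = n.1 + 1 - n.1
  ring

/-- The one-sided hypergraph: all complements of the sets `X_n`. -/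
noncomputable def hyp (p : ℕ) [Fact p.Prime] : Finset (Finset (Vert p)) :=
  (univ : Finset (ZMod p × ZMod p)).image edge

theorem mem_hyp {E : Finset (Vert p)} : E ∈ hyp p ↔ ∃ n, E = edge n := by
  rw [hyp, Finset.mem_image]
  constructor
  · rintro ⟨n, -, rfl⟩; exact ⟨n, rfl⟩
  · rintro ⟨n, rfl⟩; exact ⟨n, mem_univ _, rfl⟩

theorem hyp_antichain (hp : 2 < p) : ∀ E ∈ hyp p, ∀ E' ∈ hyp p, E ⊆ E' → E = E' := by
  intro E hE E' hE' h
  obtain ⟨n, rfl⟩ := mem_hyp.1 hE
  obtain ⟨m, rfl⟩ := mem_hyp.1 hE'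
  rw [edge_subset hp h]

theorem exists_tr_hyp : ∃ T, T ∈ tr (hyp p) := by
  have : Hits (univ : Finset (Vert p)) (hyp p) := by
    intro E hE
    obtain ⟨n, rfl⟩ := mem_hyp.1 hE
    obtain ⟨v, hv⟩ := edge_nonempty (p := p) n
    exact ⟨v, hv, mem_univ _⟩
  obtain ⟨T, -, hT⟩ := exists_tr_subset this
  exact ⟨T, hT⟩

theorem tr_hyp_nonempty {T : Finset (Vert p)} (hT : T ∈ tr (hyp p)) : T.Nonempty := by
  obtain ⟨v, -, hv⟩ := (mem_tr.1 hT).1 (edge 0) (mem_hyp.2 ⟨_, rfl⟩)
  exact ⟨v, hv⟩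

/-- The two-sided hypergraph. -/
noncomputable def two (p : ℕ) [Fact p.Prime] : Finset (Finset (Vert p ⊕ Vert p)) :=
  (hyp p).image (fun E => E.disjSum (∅ : Finset (Vert p))) ∪
    (tr (hyp p)).image (fun E => (∅ : Finset (Vert p)).disjSum E)

theorem mem_two {X : Finset (Vert p ⊕ Vert p)} :
    X ∈ two p ↔ (∃ n, X = (edge n).disjSum (∅ : Finset (Vert p))) ∨
      ∃ T ∈ tr (hyp p), X = (∅ : Finset (Vert p)).disjSum T := by
  rw [two, Finset.mem_union, Finset.mem_image, Finset.mem_image]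
  constructor
  · rintro (⟨E, hE, rfl⟩ | ⟨T, hT, rfl⟩)
    · obtain ⟨n, rfl⟩ := mem_hyp.1 hE
      exact Or.inl ⟨n, rfl⟩
    · exact Or.inr ⟨T, hT, rfl⟩
  · rintro (⟨n, rfl⟩ | ⟨T, hT, rfl⟩)
    · exact Or.inl ⟨edge n, mem_hyp.2 ⟨n, rfl⟩, rfl⟩
    · exact Or.inr ⟨T, hT, rfl⟩

theorem mem_tr_two (hp : 2 < p) {X : Finset (Vert p ⊕ Vert p)} :
    X ∈ tr (two p) ↔ ∃ T ∈ tr (hyp p), ∃ n, X = T.disjSum (edge n) := by
  rw [two, tr_disj, tr_tr (hyp_antichain hp)]
  constructor
  · rintro ⟨L, hL, R, hR, rfl⟩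
    obtain ⟨n, rfl⟩ := mem_hyp.1 hR
    exact ⟨L, hL, n, rfl⟩
  · rintro ⟨T, hT, n, rfl⟩
    exact ⟨T, hT, edge n, mem_hyp.2 ⟨n, rfl⟩, rfl⟩

theorem two_antichain (hp : 2 < p) : ∀ E ∈ two p, ∀ E' ∈ two p, E ⊆ E' → E = E' := by
  intro E hE E' hE' h
  rcases mem_two.1 hE with ⟨n, rfl⟩ | ⟨T, hT, rfl⟩
  · rcases mem_two.1 hE' with ⟨m, rfl⟩ | ⟨T', hT', rfl⟩
    · have : n = m := by
        apply edge_subset hp
        intro v hv
        exact Finset.inl_mem_disjSum.1 (h (Finset.inl_mem_disjSum.2 hv))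
      rw [this]
    · obtain ⟨v, hv⟩ := edge_nonempty (p := p) n
      exact absurd (Finset.inl_mem_disjSum.1 (h (Finset.inl_mem_disjSum.2 hv)))
        (Finset.notMem_empty _)
  · rcases mem_two.1 hE' with ⟨m, rfl⟩ | ⟨T', hT', rfl⟩
    · obtain ⟨v, hv⟩ := tr_hyp_nonempty hT
      exact absurd (Finset.inr_mem_disjSum.1 (h (Finset.inr_mem_disjSum.2 hv)))
        (Finset.notMem_empty _)
    · have : T = T' := by
        apply tr_antichain hT hT'
        intro v hv
        exact Finset.inr_mem_disjSum.1 (h (Finset.inr_mem_disjSum.2 hv))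
      rw [this]

theorem tr_tr_two (hp : 2 < p) : tr (tr (two p)) = two p := tr_tr (two_antichain hp)

/-- The lower bound for every hypergraph with a copy of `hyp p` in context. -/
theorem lower_of_code {V : Type} [Fintype V] [DecidableEq V] (hp : 192 < p)
    (ι : Vert p → V) (hι : Function.Injective ι) (C : Finset V) (A : Finset (Finset V))
    (code : ZMod p × ZMod p → Finset V) (hcode : Function.Injective code)
    (h1 : ∀ n v, ι v ∈ code n ↔ v ∈ edge n) (h2 : ∀ n, ∀ c ∈ C, c ∉ code n)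
    (h3 : ∀ E ∈ A, (∃ n, E = code n) ∨ ∃ c ∈ C, c ∈ E)
    (h4 : ∀ n, code n ∈ A) (h5 : ∀ v, ι v ∉ C) {t : ℕ} (ht : Mult t A) :
    (2 : ℝ) ^ ((p : ℝ) / 8) ≤ (t : ℝ) := by
  classical
  have hpp : 192 * 192 ≤ p ^ 2 := by nlinarith
  obtain ⟨S, hSA, hSt, ha, hb⟩ := Mult.exists_mid (a := p ^ 2 / 4 + 1)
    (fun S => ((univ : Finset (ZMod p × ZMod p)).filter (fun n => code n ∈ S)).card)
    (by
      intro E
      rw [Finset.card_le_one]
      intro n hn m hm
      rw [Finset.mem_filter, Finset.mem_singleton] at hn hm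
      exact hcode (hn.2.trans hm.2.symm))
    (by
      intro S S'
      calc ((univ : Finset (ZMod p × ZMod p)).filter (fun n => code n ∈ S ∪ S')).card
          = ((univ : Finset (ZMod p × ZMod p)).filter (fun n => code n ∈ S ∨ code n ∈ S')).card := by
            congr 1
            ext n
            simp [Finset.mem_union]
        _ ≤ _ := by
            rw [Finset.filter_or]
            exact Finset.card_union_le _ _)
    (by omega) ht
    (by
      have : ((univ : Finset (ZMod p × ZMod p)).filter (fun n => code n ∈ A)).card = p ^ 2 := by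
        rw [Finset.filter_true_of_mem (fun n _ => h4 n), Finset.card_univ, Fintype.card_prod,
          ZMod.card, sq]
      show p ^ 2 / 4 + 1 ≤
        ((univ : Finset (ZMod p × ZMod p)).filter (fun n => code n ∈ A)).card
      rw [this]
      omega)
  set ρ : Finset (ZMod p × ZMod p) := univ.filter (fun n => code n ∈ S) with hρ
  have hρmem : ∀ n, n ∈ ρ ↔ code n ∈ S := by intro n; simp [hρ]
  have e1 : p ^ 2 ≤ 4 * ρ.card := by
    have : p ^ 2 / 4 + 1 ≤ ρ.card := ha
    omega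
  have e2 : 4 * ρ.card ≤ 3 * p ^ 2 := by
    have : ρ.card < 2 * (p ^ 2 / 4 + 1) := hb
    omega
  have e3 := card_tr_le_of_context ι hι C S ρ code edge h1 h2
    (by
      intro E hE
      rcases h3 E (hSA hE) with ⟨n, rfl⟩ | hc
      · exact Or.inl ⟨n, (hρmem n).2 hE, rfl⟩
      · exact Or.inr hc)
    (fun n hn => (hρmem n).1 hn) h5
  calc (2 : ℝ) ^ ((p : ℝ) / 8) ≤ ((tr (ρ.image edge)).card : ℝ) := lower hp ρ e1 e2
    _ ≤ ((tr S).card : ℝ) := by exact_mod_cast e3
    _ ≤ (t : ℝ) := by exact_mod_cast hSt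

theorem lower_two (hp : 192 < p) {t : ℕ} (ht : Mult t (two p)) :
    (2 : ℝ) ^ ((p : ℝ) / 8) ≤ (t : ℝ) := by
  refine lower_of_code hp (Sum.inl : Vert p → Vert p ⊕ Vert p) Sum.inl_injective
    ((∅ : Finset (Vert p)).disjSum univ) (two p)
    (fun n => (edge n).disjSum (∅ : Finset (Vert p))) ?_ ?_ ?_ ?_ ?_ ?_ ht
  · intro n m h
    apply edge_subset (by omega : 2 < p)
    intro v hv
    have h' : (edge n).disjSum (∅ : Finset (Vert p)) = (edge m).disjSum ∅ := h
    have : Sum.inl v ∈ (edge m).disjSum (∅ : Finset (Vert p)) := by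
      rw [← h']; exact Finset.inl_mem_disjSum.2 hv
    exact Finset.inl_mem_disjSum.1 this
  · intro n v
    exact Finset.inl_mem_disjSum
  · rintro n (c | c) hc hcn
    · exact absurd (Finset.inl_mem_disjSum.1 hc) (Finset.notMem_empty _)
    · exact absurd (Finset.inr_mem_disjSum.1 hcn) (Finset.notMem_empty _)
  · intro E hE
    rcases mem_two.1 hE with ⟨n, rfl⟩ | ⟨T, hT, rfl⟩
    · exact Or.inl ⟨n, rfl⟩
    · obtain ⟨v, hv⟩ := tr_hyp_nonempty hT
      exact Or.inr ⟨Sum.inr v, Finset.inr_mem_disjSum.2 (mem_univ _),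
        Finset.inr_mem_disjSum.2 hv⟩
  · intro n
    exact mem_two.2 (Or.inl ⟨n, rfl⟩)
  · intro v hv
    exact absurd (Finset.inl_mem_disjSum.1 hv) (Finset.notMem_empty _)

theorem lower_tr_two (hp : 192 < p) {t : ℕ} (ht : Mult t (tr (two p))) :
    (2 : ℝ) ^ ((p : ℝ) / 8) ≤ (t : ℝ) := by
  have hp2 : 2 < p := by omega
  obtain ⟨T₀, hT₀⟩ := exists_tr_hyp (p := p)
  refine lower_of_code hp (Sum.inr : Vert p → Vert p ⊕ Vert p) Sum.inr_injective
    (T₀ᶜ.disjSum (∅ : Finset (Vert p))) (tr (two p))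
    (fun n => T₀.disjSum (edge n)) ?_ ?_ ?_ ?_ ?_ ?_ ht
  · intro n m h
    apply edge_subset hp2
    intro v hv
    have h' : T₀.disjSum (edge n) = T₀.disjSum (edge m) := h
    have : Sum.inr v ∈ T₀.disjSum (edge m) := by
      rw [← h']; exact Finset.inr_mem_disjSum.2 hv
    exact Finset.inr_mem_disjSum.1 this
  · intro n v
    exact Finset.inr_mem_disjSum
  · rintro n (c | c) hc hcn
    · exact (Finset.mem_compl.1 (Finset.inl_mem_disjSum.1 hc)) (Finset.inl_mem_disjSum.1 hcn)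
    · exact absurd (Finset.inr_mem_disjSum.1 hc) (Finset.notMem_empty _)
  · intro E hE
    obtain ⟨T, hT, n, rfl⟩ := (mem_tr_two hp2).1 hE
    by_cases hTT : T ⊆ T₀
    · rw [tr_antichain hT hT₀ hTT]
      exact Or.inl ⟨n, rfl⟩
    · obtain ⟨v, hv, hvT⟩ := Finset.not_subset.1 hTT
      exact Or.inr ⟨Sum.inl v, Finset.inl_mem_disjSum.2 (Finset.mem_compl.2 hvT),
        Finset.inl_mem_disjSum.2 hv⟩
  · intro n
    exact (mem_tr_two hp2).2 ⟨T₀, hT₀, n, rfl⟩
  · intro v hv
    exact absurd (Finset.inr_mem_disjSum.1 hv) (Finset.notMem_empty _)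

end Pool.Agent.H8.BM
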